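import Pool.Agent.W23.DC.Defs
import Pool.Agent.W23.DSa

set_option autoImplicit false

/-!
Smooth parts of shifted primes (DC-SP): second moment of the smooth part of `a - p`.
-/

namespace Pool.Agent.W342.DC

open Finset ArithmeticFunction Filter
open Pool.Agent.W23.DC Pool.Agent.W23.DS

/-- the primes up to `N` -/
def PN (N : ℕ) : Finset ℕ := (Icc 1 N).filter Nat.Prime

theorem mem_PN {N p : ℕ} : p ∈ PN N ↔ p.Prime ∧ p ≤ N := by
  unfold PN
  rw [mem_filter, mem_Icc]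
  exact ⟨fun h => ⟨h.2, h.1.2⟩, fun h => ⟨⟨h.1.one_lt.le, h.2⟩, h.1⟩⟩

/-- the sum of `log l` over `l ∈ S` dividing `a - p` -/
noncomputable def RR (S : Finset ℕ) (a : ℤ) (p : ℕ) : ℝ :=
  ∑ l ∈ S, if (l : ℤ) ∣ a - p then Real.log l else 0

theorem RR_nonneg (S : Finset ℕ) (a : ℤ) (p : ℕ) : 0 ≤ RR S a p := by
  unfold RR
  apply Finset.sum_nonneg
  intro l _
  split_ifs
  · exact Real.log_natCast_nonneg l
  · exact le_rfl

theorem second {N : ℕ} {a : ℤ} {M : ℝ} (hM : 0 ≤ M) (S : Finset ℕ) (hS : ∀ l ∈ S, l.Prime)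
    (h1 : ∀ l ∈ S, (cc (PN N) a l : ℝ) ≤ M / ((l : ℝ) - 1))
    (h2 : ∀ l ∈ S, ∀ l' ∈ S, l ≠ l' →
      (cc (PN N) a (l * l') : ℝ) ≤ M / (((l : ℝ) - 1) * ((l' : ℝ) - 1))) :
    ∑ p ∈ (PN N).filter (fun p : ℕ => (p : ℤ) ≠ a), RR S a p ^ 2 ≤
      M * ((∑ l ∈ S, Real.log l / ((l : ℝ) - 1)) ^ 2 +
        ∑ l ∈ S, Real.log l * (Real.log l / ((l : ℝ) - 1))) := by
  classical
  have e1 : ∀ p : ℕ, RR S a p ^ 2 = ∑ l ∈ S, ∑ l' ∈ S,
      if ((l : ℤ) ∣ a - p ∧ (l' : ℤ) ∣ a - p) then Real.log l * Real.log l' else 0 := by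
    intro p
    unfold RR
    rw [sq, Finset.sum_mul_sum]
    apply Finset.sum_congr rfl
    intro l _
    apply Finset.sum_congr rfl
    intro l' _
    by_cases hl : (l : ℤ) ∣ a - p <;> by_cases hl' : (l' : ℤ) ∣ a - p <;> simp [hl, hl']
  have e2 : ∑ p ∈ (PN N).filter (fun p : ℕ => (p : ℤ) ≠ a), RR S a p ^ 2 =
      ∑ l ∈ S, ∑ l' ∈ S, (((PN N).filter (fun p : ℕ => (p : ℤ) ≠ a)).filter
        (fun p : ℕ => (l : ℤ) ∣ a - p ∧ (l' : ℤ) ∣ a - p)).card *
          (Real.log l * Real.log l') := by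
    rw [Finset.sum_congr rfl fun p _ => e1 p, Finset.sum_comm]
    apply Finset.sum_congr rfl
    intro l _
    rw [Finset.sum_comm]
    apply Finset.sum_congr rfl
    intro l' _
    rw [← Finset.sum_filter, Finset.sum_const, nsmul_eq_mul]
  have e3 : M * ((∑ l ∈ S, Real.log l / ((l : ℝ) - 1)) ^ 2 +
        ∑ l ∈ S, Real.log l * (Real.log l / ((l : ℝ) - 1))) =
      ∑ l ∈ S, ∑ l' ∈ S, (M * (Real.log l / ((l : ℝ) - 1) * (Real.log l' / ((l' : ℝ) - 1))) +
        if l = l' then M * (Real.log l * (Real.log l / ((l : ℝ) - 1))) else 0) := by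
    simp_rw [Finset.sum_add_distrib]
    rw [mul_add, sq, Finset.sum_mul_sum, Finset.mul_sum, Finset.mul_sum]
    congr 1
    · apply Finset.sum_congr rfl
      intro l _
      rw [Finset.mul_sum]
    · apply Finset.sum_congr rfl
      intro l hl
      rw [Finset.sum_ite_eq, if_pos hl]
  rw [e2, e3]
  apply Finset.sum_le_sum
  intro l hl
  apply Finset.sum_le_sum
  intro l' hl'
  have p1 := hS l hl
  have p2 := hS l' hl'
  have g1 : (0 : ℝ) < (l : ℝ) - 1 := by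
    have : (2 : ℝ) ≤ l := by exact_mod_cast p1.two_le
    linarith
  have g2 : (0 : ℝ) < (l' : ℝ) - 1 := by
    have : (2 : ℝ) ≤ l' := by exact_mod_cast p2.two_le
    linarith
  have k1 : 0 ≤ Real.log l := Real.log_natCast_nonneg l
  have k2 : 0 ≤ Real.log l' := Real.log_natCast_nonneg l'
  by_cases hll : l = l'
  · subst hll
    rw [if_pos rfl]
    have c1 : (((PN N).filter (fun p : ℕ => (p : ℤ) ≠ a)).filter
        (fun p : ℕ => (l : ℤ) ∣ a - p ∧ (l : ℤ) ∣ a - p)).card ≤ cc (PN N) a l := by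
      unfold cc
      apply Finset.card_le_card
      intro p hp
      rw [mem_filter, mem_filter] at hp
      rw [mem_filter]
      exact ⟨hp.1.1, hp.1.2, hp.2.1⟩
    have c2 : ((((PN N).filter (fun p : ℕ => (p : ℤ) ≠ a)).filter
        (fun p : ℕ => (l : ℤ) ∣ a - p ∧ (l : ℤ) ∣ a - p)).card : ℝ) ≤ M / ((l : ℝ) - 1) :=
      le_trans (by exact_mod_cast c1) (h1 l hl)
    have c3 := mul_le_mul_of_nonneg_right c2 (mul_nonneg k1 k1)
    have c4 : 0 ≤ M * (Real.log l / ((l : ℝ) - 1) * (Real.log l / ((l : ℝ) - 1))) := by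
      positivity
    have c5 : M / ((l : ℝ) - 1) * (Real.log l * Real.log l) =
      M * (Real.log l * (Real.log l / ((l : ℝ) - 1))) := by ring
    linarith
  · rw [if_neg hll, add_zero]
    have c1 : (((PN N).filter (fun p : ℕ => (p : ℤ) ≠ a)).filter
        (fun p : ℕ => (l : ℤ) ∣ a - p ∧ (l' : ℤ) ∣ a - p)).card ≤ cc (PN N) a (l * l') := by
      unfold cc
      apply Finset.card_le_card
      intro p hp
      rw [mem_filter, mem_filter] at hp
      rw [mem_filter]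
      refine ⟨hp.1.1, hp.1.2, ?_⟩
      have hco : IsCoprime (l : ℤ) (l' : ℤ) :=
        Nat.isCoprime_iff_coprime.2 ((Nat.coprime_primes p1 p2).2 hll)
      rw [Nat.cast_mul]
      exact hco.mul_dvd hp.2.1 hp.2.2
    have c2 : ((((PN N).filter (fun p : ℕ => (p : ℤ) ≠ a)).filter
        (fun p : ℕ => (l : ℤ) ∣ a - p ∧ (l' : ℤ) ∣ a - p)).card : ℝ) ≤
        M / (((l : ℝ) - 1) * ((l' : ℝ) - 1)) :=
      le_trans (by exact_mod_cast c1) (h2 l hl l' hl' hll)
    have c3 := mul_le_mul_of_nonneg_right c2 (mul_nonneg k1 k2)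
    have c5 : M / (((l : ℝ) - 1) * ((l' : ℝ) - 1)) * (Real.log l * Real.log l') =
      M * (Real.log l / ((l : ℝ) - 1) * (Real.log l' / ((l' : ℝ) - 1))) := by
      field_simp
    linarith

/-- the part of the logarithm coming from higher prime powers -/
noncomputable def RP (N : ℕ) (a : ℤ) (p : ℕ) : ℝ :=
  ∑ d ∈ (Icc 1 (3 * N)).filter (fun d => ¬ d.Prime), if (d : ℤ) ∣ a - p then Λ d else 0

theorem RP_nonneg (N : ℕ) (a : ℤ) (p : ℕ) : 0 ≤ RP N a p := by
  unfold RP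
  apply Finset.sum_nonneg
  intro l _
  split_ifs
  · exact vonMangoldt_nonneg
  · exact le_rfl

theorem sum_RP (N : ℕ) (a : ℤ) :
    ∑ p ∈ (PN N).filter (fun p : ℕ => (p : ℤ) ≠ a), RP N a p =
      ∑ d ∈ (Icc 1 (3 * N)).filter (fun d => ¬ d.Prime), Λ d * (cc (PN N) a d : ℝ) := by
  unfold RP
  rw [Finset.sum_comm]
  apply Finset.sum_congr rfl
  intro d _
  rw [← Finset.sum_filter, Finset.sum_const, nsmul_eq_mul, Finset.filter_filter, mul_comm]
  rfl

/-- the logarithm of a smooth divisor -/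
theorem log_le {N : ℕ} {a : ℤ} {p m : ℕ} {y : ℝ} (hp : p ≤ N) (ha : |(a : ℝ)| ≤ N)
    (hpa : (p : ℤ) ≠ a) (hm : m ∣ (a - p).natAbs)
    (hy : ∀ l : ℕ, l.Prime → l ∣ m → (l : ℝ) < y) :
    Real.log m ≤ RR (Q 1 y) a p + RP N a p := by
  classical
  have hn : (a - (p : ℤ)).natAbs ≠ 0 := by
    rw [Int.natAbs_ne_zero]; omega
  have hm0 : m ≠ 0 := fun h => hn (by rw [h] at hm; exact Nat.eq_zero_of_zero_dvd hm)
  have ha' : |a| ≤ N := by
    have : ((|a| : ℤ) : ℝ) ≤ ((N : ℤ) : ℝ) := by push_cast; exact ha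
    exact_mod_cast this
  have hmN : ∀ d ∈ m.divisors, d ∣ (a - (p : ℤ)).natAbs ∧ 1 ≤ d ∧ d ≤ 3 * N := by
    intro d hd
    have hd' := Nat.mem_divisors.1 hd
    have h1 : d ∣ (a - (p : ℤ)).natAbs := hd'.1.trans hm
    have h2 := Nat.le_of_dvd (Nat.pos_of_ne_zero hn) h1
    have h3 : 1 ≤ d := Nat.pos_of_mem_divisors hd
    have h4 := abs_le.1 ha'
    refine ⟨h1, h3, ?_⟩
    omega
  rw [← vonMangoldt_sum, ← Finset.sum_filter_add_sum_filter_not m.divisors Nat.Prime]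
  apply add_le_add
  · unfold RR
    rw [← Finset.sum_filter]
    have e1 : ∑ d ∈ m.divisors.filter Nat.Prime, Λ d =
        ∑ d ∈ m.divisors.filter Nat.Prime, Real.log d := by
      apply Finset.sum_congr rfl
      intro d hd
      rw [vonMangoldt_apply_prime (mem_filter.1 hd).2]
    rw [e1]
    apply Finset.sum_le_sum_of_subset_of_nonneg
    · intro d hd
      rw [mem_filter] at hd
      rw [mem_filter, mem_Q]
      have h1 := hmN d hd.1
      exact ⟨⟨hd.2, by exact_mod_cast hd.2.one_lt,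
        (hy d hd.2 (Nat.mem_divisors.1 hd.1).1).le⟩, Int.natCast_dvd.2 h1.1⟩
    · intro d _ _
      exact Real.log_natCast_nonneg d
  · unfold RP
    rw [← Finset.sum_filter]
    apply Finset.sum_le_sum_of_subset_of_nonneg
    · intro d hd
      rw [mem_filter] at hd
      rw [mem_filter, mem_filter, mem_Icc]
      have h1 := hmN d hd.1
      exact ⟨⟨h1.2, hd.2⟩, Int.natCast_dvd.2 h1.1⟩
    · intro d _ _
      exact vonMangoldt_nonneg

/-- Markov's inequality -/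
theorem markov (B : Finset ℕ) (g : ℕ → ℝ) (hg : ∀ p ∈ B, 0 ≤ g p) (t T : ℝ) (ht : 0 < t)
    (hT : ∑ p ∈ B, g p ≤ T) : (((B.filter (fun p => t ≤ g p)).card : ℕ) : ℝ) ≤ T / t := by
  rw [le_div_iff₀ ht, ← nsmul_eq_mul]
  refine le_trans (Finset.card_nsmul_le_sum _ g t fun p hp => (mem_filter.1 hp).2) ?_
  refine le_trans ?_ hT
  exact Finset.sum_le_sum_of_subset_of_nonneg (Finset.filter_subset _ _) fun p hp _ => hg p hp

theorem SP : St_SP := by
  classical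
  obtain ⟨Z, hZ3, hZ⟩ := Pool.Agent.H617R3.BT.bt 1 one_pos
  obtain ⟨C₀, hC₀, hmert⟩ := mert
  refine ⟨129, by norm_num, ?_⟩
  intro ε₁ ε' hε₁ hε₁8 hε'
  obtain ⟨S₀, hS₀, hnp⟩ := nonprime (ε₁ ^ 2 / (4 * ε')) (by positivity)
  -- conditions for large `N`
  have hlog : Tendsto (fun N : ℕ => Real.log (N : ℝ)) atTop atTop :=
    Real.tendsto_log_atTop.comp tendsto_natCast_atTop_atTop
  have hpow : Tendsto (fun N : ℕ => ((N : ℝ)) ^ (3 / 4 : ℝ)) atTop atTop :=
    (tendsto_rpow_atTop (by norm_num)).comp tendsto_natCast_atTop_atTop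
  obtain ⟨N₀, hN₀⟩ := eventually_atTop.1 ((hlog.eventually_ge_atTop 1).and
    ((hlog.eventually_ge_atTop (C₀ / ε₁)).and
    ((hlog.eventually_ge_atTop (12 * S₀ * ε' / ε₁ ^ 2)).and
    ((hpow.eventually_ge_atTop Z).and (eventually_ge_atTop ⌈Z⌉₊)))))
  refine ⟨N₀, ?_⟩
  intro N hN a ha
  obtain ⟨hL1, hLC, hLS, hNZ, hNZ'⟩ := hN₀ N hN
  set L : ℝ := Real.log (N : ℝ) with hL
  have hN1 : (1 : ℝ) < N := by
    by_contra h
    have h0 : L ≤ 0 := Real.log_nonpos (Nat.cast_nonneg _) (not_lt.1 h)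
    linarith
  have hN0 : (0 : ℝ) < N := by linarith
  have hL0 : 0 < L := by linarith
  set y : ℝ := (N : ℝ) ^ ε₁ with hy
  have hy1 : 1 ≤ y := Real.one_le_rpow hN1.le hε₁.le
  have hlogy : Real.log y = ε₁ * L := by rw [hy, Real.log_rpow hN0]
  have hy8 : y ≤ (N : ℝ) ^ (1 / 8 : ℝ) := Real.rpow_le_rpow_of_exponent_le hN1.le hε₁8
  have hyy : y * y ≤ (N : ℝ) ^ (1 / 4 : ℝ) := by
    calc y * y ≤ (N : ℝ) ^ (1 / 8 : ℝ) * (N : ℝ) ^ (1 / 8 : ℝ) :=
          mul_le_mul hy8 hy8 (by linarith) (by positivity)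
      _ = (N : ℝ) ^ (1 / 4 : ℝ) := by rw [← Real.rpow_add hN0]; norm_num
  -- Brun-Titchmarsh for moduli `≤ N ^ (1/4)`
  have bt : ∀ k : ℕ, 1 ≤ k → (k : ℝ) ≤ (N : ℝ) ^ (1 / 4 : ℝ) →
      (cc (PN N) a k : ℝ) ≤ 4 * N / L / (Nat.totient k : ℝ) := by
    intro k hk hkN
    have hk0 : (0 : ℝ) < k := by exact_mod_cast hk
    have ht0 : (0 : ℝ) < Nat.totient k := by exact_mod_cast Nat.totient_pos.2 hk
    have h1 : (N : ℝ) ^ (3 / 4 : ℝ) ≤ N / k := by
      rw [le_div_iff₀ hk0]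
      calc (N : ℝ) ^ (3 / 4 : ℝ) * k ≤ (N : ℝ) ^ (3 / 4 : ℝ) * (N : ℝ) ^ (1 / 4 : ℝ) :=
            mul_le_mul_of_nonneg_left hkN (by positivity)
        _ = N := by rw [← Real.rpow_add hN0]; norm_num
    have h2 := hZ k a N N hk (hNZ.trans h1)
    have h3 : (cc (PN N) a k : ℝ) ≤ (Pool.Agent.H617R3.BT.cnt N N k a : ℝ) := by
      exact_mod_cast cc_le_cnt (fun p hp => mem_PN.1 hp)
    have h4 : 3 / 4 * L ≤ Real.log (N / k) := by
      rw [hL, ← Real.log_rpow hN0]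
      exact Real.log_le_log (by positivity) h1
    have h6 : 0 < Real.log (N / k) := by linarith
    refine (h3.trans h2).trans ?_
    rw [div_div, div_le_div_iff₀ (by positivity) (by positivity)]
    have h5 := mul_le_mul_of_nonneg_left h4
      (show 0 ≤ 4 * (N : ℝ) * (Nat.totient k : ℝ) by positivity)
    nlinarith
  -- the set of primes
  set S : Finset ℕ := Q 1 y with hS
  have hSp : ∀ l ∈ S, l.Prime := fun l hl => (mem_Q.1 hl).1
  have hSy : ∀ l ∈ S, (l : ℝ) ≤ y := fun l hl => (mem_Q.1 hl).2.2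
  have hM0 : 0 ≤ 4 * (N : ℝ) / L := by positivity
  have hsec := second (N := N) (a := a) hM0 S hSp (by
      intro l hl
      have h1 := bt l (hSp l hl).one_lt.le (by
        have h2 := hSy l hl
        have h3 : y ≤ y * y := by nlinarith
        linarith)
      rwa [Nat.totient_prime (hSp l hl), Nat.cast_sub (hSp l hl).one_lt.le, Nat.cast_one] at h1)
    (by
      intro l hl l' hl' hll
      have h1 := bt (l * l') (Nat.mul_pos (hSp l hl).pos (hSp l' hl').pos) (by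
        rw [Nat.cast_mul]
        exact (mul_le_mul (hSy l hl) (hSy l' hl') (Nat.cast_nonneg _) (by linarith)).trans hyy)
      rwa [Nat.totient_mul ((Nat.coprime_primes (hSp l hl) (hSp l' hl')).2 hll),
        Nat.totient_prime (hSp l hl), Nat.totient_prime (hSp l' hl'), Nat.cast_mul,
        Nat.cast_sub (hSp l hl).one_lt.le, Nat.cast_sub (hSp l' hl').one_lt.le,
        Nat.cast_one] at h1)
  have hm1 : ∑ l ∈ S, Real.log l / ((l : ℝ) - 1) ≤ 2 * (ε₁ * L) := by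
    have h1 := hmert 1 y le_rfl hy1
    rw [Real.log_one, hlogy] at h1
    have h2 : C₀ ≤ ε₁ * L := by
      have := (div_le_iff₀ hε₁).1 hLC
      linarith
    linarith
  have hm0 : 0 ≤ ∑ l ∈ S, Real.log l / ((l : ℝ) - 1) := by
    apply Finset.sum_nonneg
    intro l hl
    have : (2 : ℝ) ≤ l := by exact_mod_cast (hSp l hl).two_le
    exact div_nonneg (Real.log_natCast_nonneg l) (by linarith)
  have hm2 : ∑ l ∈ S, Real.log l * (Real.log l / ((l : ℝ) - 1)) ≤ 2 * (ε₁ * L) ^ 2 := by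
    calc ∑ l ∈ S, Real.log l * (Real.log l / ((l : ℝ) - 1))
        ≤ ∑ l ∈ S, (ε₁ * L) * (Real.log l / ((l : ℝ) - 1)) := by
          apply Finset.sum_le_sum
          intro l hl
          have h2 : (2 : ℝ) ≤ l := by exact_mod_cast (hSp l hl).two_le
          apply mul_le_mul_of_nonneg_right _
            (div_nonneg (Real.log_natCast_nonneg l) (by linarith))
          rw [← hlogy]
          exact Real.log_le_log (by linarith) (hSy l hl)
      _ = (ε₁ * L) * ∑ l ∈ S, Real.log l / ((l : ℝ) - 1) := by rw [Finset.mul_sum]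
      _ ≤ (ε₁ * L) * (2 * (ε₁ * L)) := mul_le_mul_of_nonneg_left hm1 (by positivity)
      _ = 2 * (ε₁ * L) ^ 2 := by ring
  have hsec' : ∑ p ∈ (PN N).filter (fun p : ℕ => (p : ℤ) ≠ a), RR S a p ^ 2 ≤
      4 * N / L * (6 * (ε₁ * L) ^ 2) := by
    refine hsec.trans (mul_le_mul_of_nonneg_left ?_ hM0)
    have := pow_le_pow_left₀ hm0 hm1 2
    nlinarith
  -- higher prime powers
  have hcardP : ((PN N).card : ℝ) ≤ 3 * N / L := by
    have h1 : (PN N).card ≤ cc (PN N) 0 1 := by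
      unfold cc
      apply Finset.card_le_card
      intro p hp
      rw [mem_filter]
      refine ⟨hp, ?_, by simp⟩
      have := (mem_PN.1 hp).1.pos
      omega
    have h2 : (cc (PN N) 0 1 : ℝ) ≤ (Pool.Agent.H617R3.BT.cnt N N 1 0 : ℝ) := by
      exact_mod_cast cc_le_cnt (fun p hp => mem_PN.1 hp)
    have h3 := hZ 1 0 N N le_rfl (by
      rw [Nat.cast_one, div_one]
      exact (Nat.le_ceil Z).trans (by exact_mod_cast hNZ'))
    rw [Nat.totient_one, Nat.cast_one, one_mul, div_one] at h3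
    have h4 : ((PN N).card : ℝ) ≤ (cc (PN N) 0 1 : ℝ) := by exact_mod_cast h1
    have h5 : (2 + 1 : ℝ) * N / Real.log N = 3 * N / L := by norm_num [hL]
    linarith
  have ha' : |a| ≤ 2 * (N : ℤ) := by
    have h1 : ((|a| : ℤ) : ℝ) ≤ ((N : ℤ) : ℝ) := by push_cast; exact ha
    have h2 : |a| ≤ (N : ℤ) := by exact_mod_cast h1
    omega
  have hnp' := hnp (PN N) a N (fun p hp => (mem_PN.1 hp).2) ha'
  rw [← sum_RP] at hnp'
  have hRP : ∑ p ∈ (PN N).filter (fun p : ℕ => (p : ℤ) ≠ a), RP N a p ≤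
      ε₁ ^ 2 / (2 * ε') * N := by
    refine hnp'.trans ?_
    have h1 : S₀ * (PN N).card ≤ S₀ * (3 * N / L) := mul_le_mul_of_nonneg_left hcardP hS₀
    have h2 : S₀ * (3 * N / L) ≤ ε₁ ^ 2 / (4 * ε') * N := by
      rw [div_le_iff₀ (by positivity)] at hLS
      rw [mul_div_assoc', div_mul_eq_mul_div, div_le_div_iff₀ hL0 (by positivity)]
      nlinarith
    have h3 : ε₁ ^ 2 / (4 * ε') * N + ε₁ ^ 2 / (4 * ε') * N = ε₁ ^ 2 / (2 * ε') * N := by
      field_simp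
      ring
    linarith
  -- conclusion
  set B := (PN N).filter (fun p : ℕ => (p : ℤ) ≠ a) with hB
  have hk1 := markov B (fun p => RR S a p ^ 2) (fun p _ => sq_nonneg _) ((ε' * L / 2) ^ 2) _
    (by positivity) hsec'
  have hk2 := markov B (fun p => RP N a p) (fun p _ => RP_nonneg N a p) (ε' * L / 2) _
    (by positivity) hRP
  have hsub : (Icc 1 N).filter (fun p : ℕ => p.Prime ∧ (p : ℤ) ≠ a ∧ ∃ m : ℕ,
      m ∣ (a - p).natAbs ∧ (∀ l : ℕ, l.Prime → l ∣ m → (l : ℝ) < (N : ℝ) ^ ε₁) ∧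
      (N : ℝ) ^ ε' < m) ⊆
      B.filter (fun p => (ε' * L / 2) ^ 2 ≤ RR S a p ^ 2) ∪
        B.filter (fun p => ε' * L / 2 ≤ RP N a p) := by
    intro p hp
    rw [mem_filter, mem_Icc] at hp
    obtain ⟨⟨hp1, hpN⟩, hpp, hpa, m, hm, hml, hmN⟩ := hp
    have h1 := log_le hpN ha hpa hm hml
    have h2 : ε' * L ≤ Real.log m := by
      rw [hL, ← Real.log_rpow hN0]
      exact Real.log_le_log (by positivity) hmN.le
    have hpB : p ∈ B := by
      rw [hB, mem_filter, mem_PN]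
      exact ⟨⟨hpp, hpN⟩, hpa⟩
    rw [mem_union]
    rcases le_or_gt (ε' * L / 2) (RP N a p) with h | h
    · exact Or.inr (mem_filter.2 ⟨hpB, h⟩)
    · refine Or.inl (mem_filter.2 ⟨hpB, ?_⟩)
      apply pow_le_pow_left₀ (by positivity)
      have h3 : RR (Q 1 ((N : ℝ) ^ ε₁)) a p = RR S a p := rfl
      rw [h3] at h1
      linarith
  have hfin : (((Icc 1 N).filter (fun p : ℕ => p.Prime ∧ (p : ℤ) ≠ a ∧ ∃ m : ℕ,
      m ∣ (a - p).natAbs ∧ (∀ l : ℕ, l.Prime → l ∣ m → (l : ℝ) < (N : ℝ) ^ ε₁) ∧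
      (N : ℝ) ^ ε' < m)).card : ℝ) ≤
      ((B.filter (fun p => (ε' * L / 2) ^ 2 ≤ RR S a p ^ 2)).card : ℝ) +
        ((B.filter (fun p => ε' * L / 2 ≤ RP N a p)).card : ℝ) := by
    have := (Finset.card_le_card hsub).trans (Finset.card_union_le _ _)
    exact_mod_cast this
  refine hfin.trans ?_
  refine (add_le_add hk1 hk2).trans ?_
  have e1 : 4 * (N : ℝ) / L * (6 * (ε₁ * L) ^ 2) / (ε' * L / 2) ^ 2 =
      96 * (ε₁ / ε') ^ 2 * (N / L) := by
    field_simp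
    ring
  have e2 : ε₁ ^ 2 / (2 * ε') * N / (ε' * L / 2) = (ε₁ / ε') ^ 2 * (N / L) := by
    field_simp
  rw [e1, e2]
  have : 0 ≤ (ε₁ / ε') ^ 2 * ((N : ℝ) / L) := by positivity
  linarith

end Pool.Agent.W342.DC

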